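import Mathlib

set_option autoImplicit false

namespace Pool.Agent.Results.MP_e3e9ef_lc.DecisionListPatterns

open Finset

/-- real value of a Boolean -/
def val (b : Bool) : ℝ := if b then 1 else 0

/-- `c` is the coefficient vector of a multilinear representation of `f` in the AND basis -/
def IsMobius {n : ℕ} (f : (Fin n → Bool) → Bool) (c : Finset (Fin n) → ℝ) : Prop :=
  ∀ x, val (f x) = ∑ S, c S * ∏ i ∈ S, val (x i)

/-- the Mobius support (the coefficient vector exists and is unique, see `result`) -/
def support {n : ℕ} (f : (Fin n → Bool) → Bool) : Set (Finset (Fin n)) :=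
  {S | ∃ c, IsMobius f c ∧ c S ≠ 0}

/-- the Mobius sparsity -/
noncomputable def spar {n : ℕ} (f : (Fin n → Bool) → Bool) : ℕ := (support f).ncard

/-- the Mobius pattern of `x`: the vector `AND_S(x)`, `S` in the support -/
def pattern {n : ℕ} (f : (Fin n → Bool) → Bool) (x : Fin n → Bool) : support f → Bool :=
  fun S => decide (∀ i ∈ (S : Finset (Fin n)), x i = true)

/-- the number of distinct Mobius patterns -/
noncomputable def pat {n : ℕ} (f : (Fin n → Bool) → Bool) : ℕ := (Set.range (pattern f)).ncard

theorem prod_val {n : ℕ} (x : Fin n → Bool) (S : Finset (Fin n)) :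
    ∏ i ∈ S, val (x i) = if ∀ i ∈ S, x i = true then 1 else 0 := by
  split_ifs with h
  · apply Finset.prod_eq_one
    intro i hi
    simp [val, h i hi]
  · push Not at h
    obtain ⟨i, hi, hx⟩ := h
    apply Finset.prod_eq_zero hi
    simp [val, hx]

/-- linear evaluation map -/
noncomputable def ev (n : ℕ) : (Finset (Fin n) → ℝ) →ₗ[ℝ] ((Fin n → Bool) → ℝ) where
  toFun c := fun x => ∑ S, c S * ∏ i ∈ S, val (x i)
  map_add' c d := by
    ext x; simp [add_mul, Finset.sum_add_distrib]
  map_smul' r c := by
    ext x; simp [Finset.mul_sum, mul_assoc]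

theorem ev_injective (n : ℕ) : Function.Injective (ev n) := by
  rw [← LinearMap.ker_eq_bot, LinearMap.ker_eq_bot']
  intro c hc
  have key : ∀ S : Finset (Fin n), c S = 0 := by
    intro S
    induction S using Finset.strongInduction with
    | H S ih =>
      have h1 := congrFun hc (fun i => decide (i ∈ S))
      have h2 : (ev n) c (fun i => decide (i ∈ S)) =
          ∑ T, c T * ∏ i ∈ T, val (decide (i ∈ S)) := rfl
      rw [h2, Finset.sum_eq_single S] at h1
      · rw [prod_val] at h1
        simpa using h1
      · intro T _ hT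
        rw [prod_val]
        split_ifs with hsub
        · have hTS : T ⊆ S := by
            intro i hi
            simpa using hsub i hi
          rw [ih T (hTS.ssubset_of_ne hT)]
          simp
        · simp
      · simp
  ext S; exact key S

theorem existsUnique_mobius {n : ℕ} (f : (Fin n → Bool) → Bool) : ∃! c, IsMobius f c := by
  have hsurj : Function.Surjective (ev n) := by
    apply (LinearMap.injective_iff_surjective_of_finrank_eq_finrank _).mp (ev_injective n)
    simp
  obtain ⟨c, hc⟩ := hsurj (fun x => val (f x))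
  refine ⟨c, fun x => ?_, ?_⟩
  · exact (congrFun hc x).symm
  · intro d hd
    apply ev_injective n
    rw [hc]
    ext x
    exact (hd x).symm

theorem support_eq {n : ℕ} {f : (Fin n → Bool) → Bool} {c : Finset (Fin n) → ℝ}
    (hc : IsMobius f c) : support f = {S | c S ≠ 0} := by
  ext S
  constructor
  · rintro ⟨d, hd, hS⟩
    rw [(existsUnique_mobius f).unique hd hc] at hS
    exact hS
  · intro hS
    exact ⟨c, hc, hS⟩

section construction

variable (D : ℕ)

/-- selector variables -/
def X (i : Fin D) : Fin (D + D) := Fin.castAdd D i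
/-- data variables -/
def Y (i : Fin D) : Fin (D + D) := Fin.natAdd D i

theorem X_ne_Y (i j : Fin D) : X D i ≠ Y D j := by
  intro h
  have := congrArg Fin.val h
  simp [X, Y] at this
  omega

theorem X_inj {i j : Fin D} (h : X D i = X D j) : i = j := by
  have := congrArg Fin.val h
  simp [X] at this
  exact Fin.ext this

theorem Y_inj {i j : Fin D} (h : Y D i = Y D j) : i = j := by
  have := congrArg Fin.val h
  simp [Y] at this
  exact Fin.ext this

def A (i : Fin D) : Finset (Fin (D + D)) := insert (Y D i) ((univ.filter (· < i)).image (X D))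
def B (i : Fin D) : Finset (Fin (D + D)) := insert (Y D i) ((univ.filter (· ≤ i)).image (X D))

/-- `i` is the first zero of the selector variables and the `i`-th data bit is one -/
def F (i : Fin D) (z : Fin (D + D) → Bool) : Prop :=
  (∀ j < i, z (X D j) = true) ∧ z (X D i) = false ∧ z (Y D i) = true

open Classical in
/-- the decision list: output the data bit at the first zero of the selector variables -/
noncomputable def f (z : Fin (D + D) → Bool) : Bool := decide (∃ i, F D i z)

open Classical in
noncomputable def c (S : Finset (Fin (D + D))) : ℝ :=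
  ∑ i, ((if S = A D i then 1 else 0) - (if S = B D i then 1 else 0))

theorem Y_mem_A (i j : Fin D) : Y D j ∈ A D i ↔ j = i := by
  simp only [A, mem_insert, mem_image]
  constructor
  · rintro (h | ⟨k, _, h⟩)
    · exact Y_inj D h
    · exact absurd h (X_ne_Y D k j)
  · rintro rfl; left; rfl

theorem Y_mem_B (i j : Fin D) : Y D j ∈ B D i ↔ j = i := by
  simp only [B, mem_insert, mem_image]
  constructor
  · rintro (h | ⟨k, _, h⟩)
    · exact Y_inj D h
    · exact absurd h (X_ne_Y D k j)
  · rintro rfl; left; rfl

theorem X_mem_A (i j : Fin D) : X D j ∈ A D i ↔ j < i := by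
  simp only [A, mem_insert, mem_image, mem_filter, mem_univ, true_and]
  constructor
  · rintro (h | ⟨k, hk, h⟩)
    · exact absurd h (X_ne_Y D j i)
    · rw [← X_inj D h]; exact hk
  · intro h; right; exact ⟨j, h, rfl⟩

theorem X_mem_B (i j : Fin D) : X D j ∈ B D i ↔ j ≤ i := by
  simp only [B, mem_insert, mem_image, mem_filter, mem_univ, true_and]
  constructor
  · rintro (h | ⟨k, hk, h⟩)
    · exact absurd h (X_ne_Y D j i)
    · rw [← X_inj D h]; exact hk
  · intro h; right; exact ⟨j, h, rfl⟩

theorem A_inj : Function.Injective (A D) := by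
  intro i j h
  have := (Y_mem_A D i i).mpr rfl
  rw [h, Y_mem_A] at this
  exact this

theorem B_inj : Function.Injective (B D) := by
  intro i j h
  have := (Y_mem_B D i i).mpr rfl
  rw [h, Y_mem_B] at this
  exact this

theorem A_ne_B (i j : Fin D) : A D i ≠ B D j := by
  intro h
  have h1 := (Y_mem_A D i i).mpr rfl
  rw [h, Y_mem_B] at h1
  subst h1
  have h2 := (X_mem_B D i i).mpr le_rfl
  rw [← h, X_mem_A] at h2
  exact lt_irrefl _ h2

theorem c_A (i : Fin D) : c D (A D i) = 1 := by
  classical
  unfold c
  rw [Finset.sum_eq_single i]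
  · simp [A_ne_B]
  · intro j _ hj
    have h1 : A D i ≠ A D j := fun h => hj (A_inj D h).symm
    simp [A_ne_B, h1]
  · simp

theorem c_B (i : Fin D) : c D (B D i) = -1 := by
  classical
  unfold c
  rw [Finset.sum_eq_single i]
  · simp [(A_ne_B D i i).symm]
  · intro j _ hj
    have h1 : B D i ≠ B D j := fun h => hj (B_inj D h).symm
    simp [(A_ne_B D j i).symm, h1]
  · simp

theorem c_ne (S : Finset (Fin (D + D))) (h : c D S ≠ 0) : (∃ i, S = A D i) ∨ (∃ i, S = B D i) := by
  classical
  by_contra hcon
  push Not at hcon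
  apply h
  unfold c
  apply Finset.sum_eq_zero
  intro i _
  simp [hcon.1 i, hcon.2 i]

theorem F_unique {z : Fin (D + D) → Bool} {i j : Fin D} (hi : F D i z) (hj : F D j z) : i = j := by
  rcases lt_trichotomy i j with h | h | h
  · have := hj.1 i h
    rw [hi.2.1] at this
    exact absurd this (by simp)
  · exact h
  · have := hi.1 j h
    rw [hj.2.1] at this
    exact absurd this (by simp)

theorem isMobius_c : IsMobius (f D) (c D) := by
  classical
  intro z
  have h1 : ∑ S, c D S * ∏ i ∈ S, val (z i) =
      ∑ i, ((∏ k ∈ A D i, val (z k)) - ∏ k ∈ B D i, val (z k)) := by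
    unfold c
    simp only [Finset.sum_mul]
    rw [Finset.sum_comm]
    apply Finset.sum_congr rfl
    intro i _
    simp only [sub_mul, ite_mul, one_mul, zero_mul, Finset.sum_sub_distrib, Finset.sum_ite_eq',
      Finset.mem_univ, if_true]
  rw [h1]
  have h2 : ∀ i : Fin D, ((∏ k ∈ A D i, val (z k)) - ∏ k ∈ B D i, val (z k)) =
      if F D i z then 1 else 0 := by
    intro i
    rw [prod_val, prod_val]
    have ha : (∀ k ∈ A D i, z k = true) ↔ (∀ j < i, z (X D j) = true) ∧ z (Y D i) = true := by
      constructor
      · intro h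
        exact ⟨fun j hj => h _ ((X_mem_A D i j).mpr hj), h _ ((Y_mem_A D i i).mpr rfl)⟩
      · rintro ⟨h1, h2⟩ k hk
        simp only [A, mem_insert, mem_image, mem_filter, mem_univ, true_and] at hk
        rcases hk with rfl | ⟨j, hj, rfl⟩
        · exact h2
        · exact h1 j hj
    have hb : (∀ k ∈ B D i, z k = true) ↔ (∀ j ≤ i, z (X D j) = true) ∧ z (Y D i) = true := by
      constructor
      · intro h
        exact ⟨fun j hj => h _ ((X_mem_B D i j).mpr hj), h _ ((Y_mem_B D i i).mpr rfl)⟩
      · rintro ⟨h1, h2⟩ k hk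
        simp only [B, mem_insert, mem_image, mem_filter, mem_univ, true_and] at hk
        rcases hk with rfl | ⟨j, hj, rfl⟩
        · exact h2
        · exact h1 j hj
    simp only [ha, hb]
    by_cases hF : F D i z
    · have h3 : ¬ ((∀ j ≤ i, z (X D j) = true) ∧ z (Y D i) = true) := by
        rintro ⟨h4, _⟩
        have := h4 i le_rfl
        rw [hF.2.1] at this
        exact absurd this (by simp)
      rw [if_pos hF, if_pos ⟨hF.1, hF.2.2⟩, if_neg h3]
      norm_num
    · rw [if_neg hF]
      by_cases h3 : (∀ j < i, z (X D j) = true) ∧ z (Y D i) = true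
      · have h4 : (∀ j ≤ i, z (X D j) = true) ∧ z (Y D i) = true := by
          refine ⟨fun j hj => ?_, h3.2⟩
          rcases hj.lt_or_eq with h5 | h5
          · exact h3.1 j h5
          · subst h5
            by_contra h6
            exact hF ⟨h3.1, by simpa using h6, h3.2⟩
        rw [if_pos h3, if_pos h4]
        norm_num
      · have h4 : ¬ ((∀ j ≤ i, z (X D j) = true) ∧ z (Y D i) = true) := by
          rintro ⟨h5, h6⟩
          exact h3 ⟨fun j hj => h5 j hj.le, h6⟩
        rw [if_neg h3, if_neg h4]
        norm_num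
  rw [Finset.sum_congr rfl (fun i _ => h2 i)]
  by_cases hex : ∃ i, F D i z
  · obtain ⟨i, hi⟩ := hex
    rw [Finset.sum_eq_single i]
    · have : f D z = true := by
        simp only [f, decide_eq_true_eq]
        exact ⟨i, hi⟩
      rw [this, if_pos hi]
      simp [val]
    · intro j _ hj
      rw [if_neg]
      intro h
      exact hj (F_unique D h hi)
    · simp
  · have : f D z = false := by
      simp only [f, decide_eq_false_iff_not]
      exact hex
    rw [this, Finset.sum_eq_zero]
    · simp [val]
    · intro i _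
      rw [if_neg]
      intro h
      exact hex ⟨i, h⟩

theorem support_f : support (f D) = Set.range (A D) ∪ Set.range (B D) := by
  rw [support_eq (isMobius_c D)]
  ext S
  constructor
  · intro h
    rcases c_ne D S h with ⟨i, rfl⟩ | ⟨i, rfl⟩
    · left; exact ⟨i, rfl⟩
    · right; exact ⟨i, rfl⟩
  · rintro (⟨i, rfl⟩ | ⟨i, rfl⟩)
    · show c D (A D i) ≠ 0
      rw [c_A]; norm_num
    · show c D (B D i) ≠ 0
      rw [c_B]; norm_num

theorem spar_f : spar (f D) = 2 * D := by
  rw [spar, support_f, Set.ncard_union_eq]
  · rw [← Set.image_univ, ← Set.image_univ, Set.ncard_image_of_injective _ (A_inj D),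
      Set.ncard_image_of_injective _ (B_inj D), Set.ncard_univ]
    simp
    ring
  · rw [Set.disjoint_left]
    rintro _ ⟨i, rfl⟩ ⟨j, hj⟩
    exact A_ne_B D i j hj.symm

theorem le_pat_f : 2 ^ D ≤ pat (f D) := by
  classical
  let g : (Fin D → Bool) → (support (f D) → Bool) :=
    fun y => pattern (f D) (fun k => if h : ∃ i, k = Y D i then y h.choose else true)
  have hg : Function.Injective g := by
    intro y y' h
    ext i
    have hA : A D i ∈ support (f D) := by rw [support_f]; left; exact ⟨i, rfl⟩
    have h1 := congrFun h ⟨A D i, hA⟩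
    have key : ∀ y : Fin D → Bool, g y ⟨A D i, hA⟩ = y i := by
      intro y
      show decide (∀ k ∈ A D i, (if h : ∃ i, k = Y D i then y h.choose else true) = true) = y i
      have hY : ∀ j : Fin D, (if h : ∃ i, Y D j = Y D i then y h.choose else true) = y j := by
        intro j
        have hex : ∃ i, Y D j = Y D i := ⟨j, rfl⟩
        rw [dif_pos hex]
        rw [← Y_inj D hex.choose_spec]
      by_cases hyi : y i = true
      · rw [hyi]
        simp only [decide_eq_true_eq]
        intro k hk
        simp only [A, mem_insert, mem_image, mem_filter, mem_univ, true_and] at hk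
        rcases hk with rfl | ⟨j, hj, rfl⟩
        · rw [hY, hyi]
        · rw [dif_neg]
          rintro ⟨l, hl⟩
          exact X_ne_Y D j l hl
      · have hyi' : y i = false := by simpa using hyi
        rw [hyi']
        simp only [decide_eq_false_iff_not]
        intro hall
        have := hall (Y D i) ((Y_mem_A D i i).mpr rfl)
        rw [hY, hyi'] at this
        exact absurd this (by simp)
    rw [key y, key y'] at h1
    rw [h1]
  have h2 : (Set.range g).ncard = 2 ^ D := by
    rw [← Set.image_univ, Set.ncard_image_of_injective _ hg, Set.ncard_univ]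
    simp
  rw [← h2, pat]
  haveI : Finite (support (f D)) := Set.toFinite _
  apply Set.ncard_le_ncard _ (Set.toFinite _)
  rintro _ ⟨y, rfl⟩
  exact ⟨_, rfl⟩

end construction

/-- The Mobius coefficients exist and are unique; for every `D` there is a Boolean function on `2D`
variables with Mobius sparsity `2D` and at least `2^D` Mobius patterns; consequently no bound
`Pat(f) ≤ 2^(C spar(f)^(1-δ))` with `δ > 0` holds for all Boolean functions. -/
theorem result :
    (∀ (n : ℕ) (f : (Fin n → Bool) → Bool), ∃! c, IsMobius f c) ∧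
    (∀ D : ℕ, ∃ f : (Fin (D + D) → Bool) → Bool, spar f = 2 * D ∧ 2 ^ D ≤ pat f) ∧
    (∀ δ : ℝ, 0 < δ → ∀ C : ℝ, 0 < C → ∃ (n : ℕ) (f : (Fin n → Bool) → Bool),
      (2 : ℝ) ^ (C * (spar f : ℝ) ^ (1 - δ)) < (pat f : ℝ)) := by
  refine ⟨fun n f => existsUnique_mobius f, fun D => ⟨f D, spar_f D, le_pat_f D⟩, ?_⟩
  intro δ hδ C hC
  have hlim : Filter.Tendsto (fun D : ℕ => ((2 * D : ℕ) : ℝ) ^ δ) Filter.atTop Filter.atTop := by
    apply (tendsto_rpow_atTop hδ).comp
    apply tendsto_natCast_atTop_atTop.comp
    exact Filter.tendsto_id.const_mul_atTop' (by norm_num)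
  obtain ⟨D, hD1, hD2⟩ := ((hlim.eventually_gt_atTop (2 * C)).and
    (Filter.eventually_ge_atTop 1)).exists
  refine ⟨D + D, f D, ?_⟩
  rw [spar_f]
  have hpos : (0:ℝ) < ((2 * D : ℕ) : ℝ) := by
    have : 0 < 2 * D := by omega
    exact_mod_cast this
  have h1 : C * ((2 * D : ℕ) : ℝ) ^ (1 - δ) < D := by
    rw [Real.rpow_sub hpos, Real.rpow_one, mul_div_assoc']
    rw [div_lt_iff₀ (Real.rpow_pos_of_pos hpos δ)]
    have h2 : ((2 * D : ℕ) : ℝ) = 2 * D := by push_cast; ring
    have hDpos : (0:ℝ) < D := by exact_mod_cast (by omega : 0 < D)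
    calc C * ((2 * D : ℕ) : ℝ) = D * (2 * C) := by rw [h2]; ring
      _ < D * ((2 * D : ℕ) : ℝ) ^ δ := by
          apply mul_lt_mul_of_pos_left hD1 hDpos
  calc (2 : ℝ) ^ (C * ((2 * D : ℕ) : ℝ) ^ (1 - δ)) < (2 : ℝ) ^ (D : ℝ) :=
        Real.rpow_lt_rpow_of_exponent_lt (by norm_num) h1
    _ = ((2 ^ D : ℕ) : ℝ) := by rw [Real.rpow_natCast]; push_cast; rfl
    _ ≤ (pat (f D) : ℝ) := by exact_mod_cast le_pat_f D

end Pool.Agent.Results.MP_e3e9ef_lc.DecisionListPatterns
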